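import Pool.Agent.T2H43.LK.Main

/-!
# Curvature is not invariant under Gorenstein linkage (MP_ae0d71_al, Q2)

Over the Artinian Gorenstein ring `S = R[y,z]/(y²,z²)` of the starting files, the two ideals `I`, `J`
linked by the ideal `0` have curvatures `curv_S(J) ≤ 1` and `curv_S(I) ≥ 2`.
-/

set_option autoImplicit false

open Filter Topology

namespace Pool.Agent.Results.MP_ae0d71_al.CurvatureDiffers

open Pool.Agent.T2H43.LK

theorem tendsto_up : Tendsto (fun n : ℕ => ENNReal.ofReal ((n : ℝ) ^ ((4 : ℝ) / (n : ℝ)))) atTop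
    (𝓝 1) := by
  have h1 : Tendsto (fun x : ℝ => x ^ ((4 : ℝ) / (1 * x + 0))) atTop (𝓝 1) :=
    tendsto_rpow_div_mul_add 4 1 0 (by norm_num)
  have h2 := (ENNReal.tendsto_ofReal h1).comp tendsto_natCast_atTop_atTop
  rw [ENNReal.ofReal_one] at h2
  refine h2.congr fun n => ?_
  simp only [Function.comp, one_mul, add_zero]

/-- polynomial growth gives curvature at most `1` -/
theorem limsup_le_one (β : ℕ → ℕ∞) (h : ∀ n : ℕ, β n ≤ (((n + 1) * (n + 3) : ℕ) : ℕ∞)) :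
    limsup (fun n : ℕ => ((β n : ℕ∞) : ENNReal) ^ (1 / (n : ℝ))) atTop ≤ 1 := by
  rw [← tendsto_up.limsup_eq]
  refine limsup_le_limsup ?_
  filter_upwards [eventually_ge_atTop 3] with n hn
  have h1 : ((β n : ℕ∞) : ENNReal) ≤ ENNReal.ofReal ((n : ℝ) ^ (4 : ℝ)) := by
    have h2 : (n + 1) * (n + 3) ≤ n ^ 4 := by
      have h3 : n + 1 ≤ n ^ 2 := by nlinarith
      have h4 : n + 3 ≤ n ^ 2 := by nlinarith
      calc (n + 1) * (n + 3) ≤ n ^ 2 * n ^ 2 := Nat.mul_le_mul h3 h4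
        _ = n ^ 4 := by ring
    have h5 : ((β n : ℕ∞) : ENNReal) ≤ ((((n + 1) * (n + 3) : ℕ) : ℕ∞) : ENNReal) :=
      ENat.toENNReal_le.2 (h n)
    refine h5.trans ?_
    have h6 : (n : ℝ) ^ (4 : ℝ) = ((n ^ 4 : ℕ) : ℝ) := by
      rw [show (4 : ℝ) = ((4 : ℕ) : ℝ) by norm_num, Real.rpow_natCast]
      push_cast
      rfl
    rw [h6, ENNReal.ofReal_natCast, ENat.toENNReal_coe]
    exact_mod_cast h2
  calc ((β n : ℕ∞) : ENNReal) ^ (1 / (n : ℝ))
      ≤ (ENNReal.ofReal ((n : ℝ) ^ (4 : ℝ))) ^ (1 / (n : ℝ)) :=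
        ENNReal.rpow_le_rpow h1 (by positivity)
    _ = ENNReal.ofReal ((n : ℝ) ^ ((4 : ℝ) / (n : ℝ))) := by
        rw [ENNReal.ofReal_rpow_of_nonneg (by positivity) (by positivity),
          ← Real.rpow_mul (by positivity)]
        congr 2
        ring

theorem tendsto_low : Tendsto (fun n : ℕ => ENNReal.ofReal ((2 : ℝ) ^ (1 - 1 / (n : ℝ)))) atTop
    (𝓝 2) := by
  have h0 : Tendsto (fun n : ℕ => (1 : ℝ) - 1 / (n : ℝ)) atTop (𝓝 (1 - 0)) :=
    tendsto_const_nhds.sub tendsto_one_div_atTop_nhds_zero_nat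
  have h1 : Tendsto (fun n : ℕ => (2 : ℝ) ^ (1 - 1 / (n : ℝ))) atTop (𝓝 ((2 : ℝ) ^ (1 - (0 : ℝ)))) :=
    (Real.continuousAt_const_rpow (by norm_num)).tendsto.comp h0
  have h2 := ENNReal.tendsto_ofReal h1
  rw [sub_zero, Real.rpow_one] at h2
  simpa using h2

/-- growth at least `2 ^ n / 2` gives curvature at least `2` -/
theorem two_le_limsup (β : ℕ → ℕ∞) (h : ∀ n : ℕ, ((3 * 2 ^ n : ℕ) : ℕ∞) ≤ 4 * β n) :
    2 ≤ limsup (fun n : ℕ => ((β n : ℕ∞) : ENNReal) ^ (1 / (n : ℝ))) atTop := by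
  rw [← tendsto_low.limsup_eq]
  refine limsup_le_limsup ?_
  filter_upwards [eventually_ge_atTop 1] with n hn
  have hn0 : (n : ℝ) ≠ 0 := by
    have : n ≠ 0 := by omega
    exact_mod_cast this
  have h1 : ENNReal.ofReal ((2 : ℝ) ^ ((n : ℝ) - 1)) ≤ ((β n : ℕ∞) : ENNReal) := by
    have h2 : ((2 ^ (n - 1) : ℕ) : ℕ∞) ≤ β n := by
      cases hb : β n using ENat.recTopCoe with
      | top => exact le_top
      | coe b =>
        have h3 := h n
        rw [hb] at h3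
        have h4 : 3 * 2 ^ n ≤ 4 * b := by exact_mod_cast h3
        have h5 : 2 ^ (n - 1) ≤ b := by
          have h6 : 2 ^ n = 2 * 2 ^ (n - 1) := by
            rw [← pow_succ']
            congr 1
            omega
          omega
        exact_mod_cast h5
    have h7 : (((2 ^ (n - 1) : ℕ) : ℕ∞) : ENNReal) ≤ ((β n : ℕ∞) : ENNReal) :=
      ENat.toENNReal_le.2 h2
    refine le_trans (le_of_eq ?_) h7
    have h8 : (2 : ℝ) ^ ((n : ℝ) - 1) = ((2 ^ (n - 1) : ℕ) : ℝ) := by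
      have h9 : (n : ℝ) - 1 = ((n - 1 : ℕ) : ℝ) := by
        rw [Nat.cast_sub hn]
        norm_num
      rw [h9, Real.rpow_natCast]
      push_cast
      rfl
    rw [h8, ENNReal.ofReal_natCast, ENat.toENNReal_coe]
  calc ENNReal.ofReal ((2 : ℝ) ^ (1 - 1 / (n : ℝ)))
      = (ENNReal.ofReal ((2 : ℝ) ^ ((n : ℝ) - 1))) ^ (1 / (n : ℝ)) := by
        rw [ENNReal.ofReal_rpow_of_nonneg (by positivity) (by positivity),
          ← Real.rpow_mul (by norm_num)]
        congr 2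
        field_simp
    _ ≤ ((β n : ℕ∞) : ENNReal) ^ (1 / (n : ℝ)) := ENNReal.rpow_le_rpow h1 (by positivity)

/-- There are a Gorenstein local ring `S`, a Gorenstein perfect ideal `a` and proper ideals `I`, `J`
linked by `a`, with `S/I` and `S/J` Cohen-Macaulay, such that `curv_S(J) ≤ 1` and
`curv_S(I) ≥ 2`. -/
theorem result :
    ∃ (S : Type) (_ : CommRing S) (_ : IsLocalRing S) (a I J : Ideal S),
      IsGorensteinLocal S ∧ IsGorensteinPerfect a ∧ I ≠ ⊤ ∧ J ≠ ⊤ ∧ IsLinked a I J ∧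
      IsCMLocal (S ⧸ I) ∧ IsCMLocal (S ⧸ J) ∧ curv S J ≤ 1 ∧ 2 ≤ curv S I :=
  ⟨D2 RR, inferInstance, inferInstance, ⊥, II, J1, gor, gorPerf, II_ne_top, J1_ne_top,
    linked, cm_quot _ II_ne_top, cm_quot _ J1_ne_top, limsup_le_one _ betti_J1,
    two_le_limsup _ betti_II⟩

end Pool.Agent.Results.MP_ae0d71_al.CurvatureDiffers
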